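import Pool.Agent.ZS51.Diffuse

/-!
# MP_c516b4_pr: on average at most a proportion {α₀} of the mass of χ(G(n,1/2)) is concentrated
-/

set_option autoImplicit false

open Filter Topology

namespace Pool.Agent.Results.MP_c516b4_pr.Diffuse

/-- `α₀(n)` as in the problem -/
noncomputable def alpha0 (n : ℕ) : ℝ :=
  2 * Real.logb 2 (n : ℝ) - 2 * Real.logb 2 (Real.logb 2 (n : ℝ))
    + 2 * Real.logb 2 (Real.exp 1 / 2) + 1

/-- `α(n) = ⌊α₀(n)⌋` -/
noncomputable def alpha (n : ℕ) : ℕ := ⌊alpha0 n⌋₊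

/-- the expected number of independent sets of size `a` in `G(n,1/2)` -/
noncomputable def mu (n a : ℕ) : ℝ := (n.choose a : ℝ) / (2 : ℝ) ^ (a.choose 2)

/-- `P(b ≤ χ(G(n,1/2)) ≤ b + L)` -/
noncomputable def P (n : ℕ) (b L : ℝ) : ℝ :=
  (Nat.card {G : SimpleGraph (Fin n) // b ≤ (G.chromaticNumber.toNat : ℝ) ∧
      (G.chromaticNumber.toNat : ℝ) ≤ b + L} : ℝ) / (2 : ℝ) ^ (n.choose 2)

/-- the length `c √μ_α(n) / log n` -/
noncomputable def len (c : ℝ) (n : ℕ) : ℝ := c * Real.sqrt (mu n (alpha n)) / Real.log n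

/-- For all `δ, ε, κ > 0` there is `c > 0` such that for all large `N`: if for every `n` in `(N, (1+κ)N]`
finitely many disjoint intervals of length `L(n) = c √μ_α(n)/log n` are given (left end points `F n`), each
containing `χ(G(n,1/2))` with probability at least `δ`, then the total probability of all these intervals, summed
over `n`, is at most `∑_n {α₀(n)} + ε N`. -/
theorem result : ∀ δ ε κ : ℝ, 0 < δ → 0 < ε → 0 < κ → ∃ c : ℝ, 0 < c ∧
    ∀ᶠ N : ℕ in atTop, ∀ F : ℕ → Finset ℝ,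
      (∀ n ∈ Finset.Ioc N ⌊(1 + κ) * (N : ℝ)⌋₊, ∀ b ∈ F n,
        (∀ b' ∈ F n, b < b' → b + len c n < b') ∧ δ ≤ P n b (len c n)) →
      ∑ n ∈ Finset.Ioc N ⌊(1 + κ) * (N : ℝ)⌋₊, ∑ b ∈ F n, P n b (len c n)
        ≤ ∑ n ∈ Finset.Ioc N ⌊(1 + κ) * (N : ℝ)⌋₊, Int.fract (alpha0 n) + ε * N := by
  intro δ ε κ hδ hε hκ
  obtain ⟨c, hc, h⟩ := ZS51.diffuse δ ε κ hδ hε hκ
  exact ⟨c, hc, h⟩

end Pool.Agent.Results.MP_c516b4_pr.Diffuse
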