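import Pool.Agent.ZS51.Exact
import Pool.Agent.ZS51.Many

/-!
# MP_c516b4_pr: non-concentration of χ(G(n,1/2)) for a proportion 1 - ρ(N) of the n near every N

`alpha0 n`, `alpha n`, `mu n a`, `rho n`, `lam n` are as in the problem. `NonConc n L m` says that every real interval
of length `L` contains the chromatic number of `G(n,1/2)` with probability at most `m`.
-/

set_option autoImplicit false

open Filter Topology

namespace Pool.Agent.Results.MP_c516b4_pr.Local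

/-- `α₀(n)` as in the problem -/
noncomputable def alpha0 (n : ℕ) : ℝ :=
  2 * Real.logb 2 (n : ℝ) - 2 * Real.logb 2 (Real.logb 2 (n : ℝ))
    + 2 * Real.logb 2 (Real.exp 1 / 2) + 1

/-- `α(n) = ⌊α₀(n)⌋` -/
noncomputable def alpha (n : ℕ) : ℕ := ⌊alpha0 n⌋₊

/-- the expected number of independent sets of size `a` in `G(n,1/2)` -/
noncomputable def mu (n a : ℕ) : ℝ := (n.choose a : ℝ) / (2 : ℝ) ^ (a.choose 2)

/-- `ρ(n) = log μ_α / log n` -/
noncomputable def rho (n : ℕ) : ℝ := Real.log (mu n (alpha n)) / Real.log n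

/-- `λ(n) = max (ρ/2, (1-ρ)/2)` -/
noncomputable def lam (n : ℕ) : ℝ := max (rho n / 2) ((1 - rho n) / 2)

/-- every real interval `[b, b + L]` contains `χ(G(n,1/2))` with probability at most `m` -/
def NonConc (n : ℕ) (L m : ℝ) : Prop := ∀ b : ℝ,
  (Nat.card {G : SimpleGraph (Fin n) // b ≤ (G.chromaticNumber.toNat : ℝ) ∧
      (G.chromaticNumber.toNat : ℝ) ≤ b + L} : ℝ) / (2 : ℝ) ^ (n.choose 2) ≤ m

/-- (1) For all `K ≥ 1` and `δ, ε, κ > 0` there is `c > 0` such that for all large `N`, at least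
`∑_{N < n ≤ (1+κ)N} (1 - K {α₀(n)}) - ε N` of the integers `n` in `(N, (1+κ)N]` have the property that no
interval of length `c √μ_α(n) / log n` contains `χ(G(n,1/2))` with probability more than
`1/(K+1) + δ`.
(2) For `δ, ε > 0` and every small `κ > 0` there is `c > 0` such that for every large `N` with
`1/2 + ε ≤ ρ(N) ≤ 1 - ε`, at least `(1 - ρ(N) - ε) κ N` of the integers `n` in `(N, (1+κ)N]` have
`ρ(n) > 1/2` and the property that no interval of length `c n^{λ(n)} / log n` contains `χ(G(n,1/2))` with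
probability more than `1/2 + δ`. -/
theorem result :
    (∀ K : ℕ, 1 ≤ K → ∀ δ ε κ : ℝ, 0 < δ → 0 < ε → 0 < κ →
      ∃ c : ℝ, 0 < c ∧ ∀ᶠ N : ℕ in atTop,
        ∑ n ∈ Finset.Ioc N ⌊(1 + κ) * (N : ℝ)⌋₊, (1 - K * Int.fract (alpha0 n)) - ε * N
          ≤ (Nat.card {n : ℕ // N < n ∧ n ≤ ⌊(1 + κ) * (N : ℝ)⌋₊ ∧
            NonConc n (c * Real.sqrt (mu n (alpha n)) / Real.log n)
              (1 / ((K : ℝ) + 1) + δ)} : ℝ)) ∧
    (∀ δ ε : ℝ, 0 < δ → 0 < ε → ∃ κ₀ : ℝ, 0 < κ₀ ∧ ∀ κ : ℝ, 0 < κ → κ ≤ κ₀ →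
      ∃ c : ℝ, 0 < c ∧ ∀ᶠ N : ℕ in atTop, 1 / 2 + ε ≤ rho N → rho N ≤ 1 - ε →
        (1 - rho N - ε) * (κ * N)
          ≤ (Nat.card {n : ℕ // N < n ∧ n ≤ ⌊(1 + κ) * (N : ℝ)⌋₊ ∧ 1 / 2 < rho n ∧
            NonConc n (c * (n : ℝ) ^ (lam n) / Real.log n) (1 / 2 + δ)} : ℝ)) := by
  classical
  constructor
  · intro K hK δ ε κ hδ hε hκ
    obtain ⟨c, hc, h⟩ := ZS51.local_many K hK δ ε κ hδ hε hκ
    refine ⟨c, hc, ?_⟩
    filter_upwards [h] with N hN
    have hcard : (Nat.card {n : ℕ // N < n ∧ n ≤ ⌊(1 + κ) * (N : ℝ)⌋₊ ∧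
            NonConc n (c * Real.sqrt (mu n (alpha n)) / Real.log n)
              (1 / ((K : ℝ) + 1) + δ)} : ℝ)
        = (((Finset.Ioc N ⌊(1 + κ) * (N : ℝ)⌋₊).filter (fun n : ℕ =>
              ZZ51.NonConc n (c * Real.sqrt (ZZ51.mu n (ZZ51.al n)) / Real.log n)
                (1 / ((K : ℝ) + 1) + δ))).card : ℝ) := by
      have e : {n : ℕ // N < n ∧ n ≤ ⌊(1 + κ) * (N : ℝ)⌋₊ ∧
            NonConc n (c * Real.sqrt (mu n (alpha n)) / Real.log n)
              (1 / ((K : ℝ) + 1) + δ)}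
          ≃ {n : ℕ // n ∈ (Finset.Ioc N ⌊(1 + κ) * (N : ℝ)⌋₊).filter (fun n : ℕ =>
              ZZ51.NonConc n (c * Real.sqrt (ZZ51.mu n (ZZ51.al n)) / Real.log n)
                (1 / ((K : ℝ) + 1) + δ))} :=
        Equiv.subtypeEquivRight (fun n => by
          rw [Finset.mem_filter, Finset.mem_Ioc, and_assoc]
          exact Iff.rfl)
      rw [Nat.card_congr e, Nat.card_eq_fintype_card, Fintype.card_coe]
    rw [hcard]
    exact hN
  · intro δ ε hδ hε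
    obtain ⟨κ₀, hκ₀, h⟩ := ZS51.exact_local δ ε hδ hε
    refine ⟨κ₀, hκ₀, fun κ hκ hκ' => ?_⟩
    obtain ⟨c, hc, h'⟩ := h κ hκ hκ'
    refine ⟨c, hc, ?_⟩
    filter_upwards [h'] with N hN h1 h2
    refine (hN h1 h2).trans (le_of_eq ?_)
    have e : {n : ℕ // N < n ∧ n ≤ ⌊(1 + κ) * (N : ℝ)⌋₊ ∧ 1 / 2 < rho n ∧
            NonConc n (c * (n : ℝ) ^ (lam n) / Real.log n) (1 / 2 + δ)}
        ≃ {n : ℕ // n ∈ (Finset.Ioc N ⌊(1 + κ) * (N : ℝ)⌋₊).filter (fun n : ℕ => 1 / 2 < ZZ51.rho n ∧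
              ZZ51.NonConc n (c * (n : ℝ) ^ (ZZ51.lam n) / Real.log n) (1 / 2 + δ))} :=
      Equiv.subtypeEquivRight (fun n => by
        rw [Finset.mem_filter, Finset.mem_Ioc, and_assoc]
        exact Iff.rfl)
    rw [Nat.card_congr e, Nat.card_eq_fintype_card, Fintype.card_coe]

end Pool.Agent.Results.MP_c516b4_pr.Local
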